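import Pool.Agent.helper13.BN.Defs

set_option autoImplicit false
open MeasureTheory Filter Topology Set Metric
open scoped ContDiff Gradient RealInnerProductSpace ENNReal

noncomputable section
namespace Pool.Agent.helper13.BN

namespace AxInt

lemma integrable_bdd {α : Type*} [MeasurableSpace α] {μ : Measure α} {f : α → ℝ}
    (hf : Measurable f) {S : Set α} (hμ : μ S ≠ ⊤) {M : ℝ}
    (hM : ∀ x, |f x| ≤ M) (h0 : ∀ x, x ∉ S → f x = 0) : Integrable f μ := by
  have h1 : IntegrableOn f S μ :=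
    Measure.integrableOn_of_bounded hμ hf.aestronglyMeasurable (ae_of_all _ hM)
  exact (integrableOn_iff_integrable_of_support_subset fun x hx => by
    by_contra h; exact hx (h0 x h)).1 h1

/-- the splitting `ℝ^{n+1} = ℝ × ℝ^n` -/
def T (n : ℕ) : E (n + 1) ≃ᵐ ℝ × E n :=
  (MeasurableEquiv.toLp 2 (Fin (n + 1) → ℝ)).symm.trans
    ((MeasurableEquiv.piFinSuccAbove (fun _ => ℝ) 0).trans
      (MeasurableEquiv.prodCongr (MeasurableEquiv.refl ℝ) (MeasurableEquiv.toLp 2 (Fin n → ℝ))))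

lemma T_mp (n : ℕ) : MeasurePreserving (T n) volume volume :=
  (EuclideanSpace.volume_preserving_symm_measurableEquiv_toLp _).trans
    ((volume_preserving_piFinSuccAbove (fun _ => ℝ) 0).trans
      ((MeasurePreserving.id volume).prod
        (EuclideanSpace.volume_preserving_symm_measurableEquiv_toLp _).symm))

lemma T_fst (n : ℕ) (y : E (n + 1)) : (T n y).1 = y 0 := rfl

lemma T_snd (n : ℕ) (y : E (n + 1)) (i : Fin n) : (T n y).2 i = y i.succ := rfl

lemma T_norm (n : ℕ) (y : E (n + 1)) : ‖y‖ = √((T n y).1 ^ 2 + ‖(T n y).2‖ ^ 2) := by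
  symm
  rw [Real.sqrt_eq_iff_mul_self_eq (by positivity) (norm_nonneg _), ← pow_two,
    EuclideanSpace.norm_sq_eq, EuclideanSpace.norm_sq_eq, Fin.sum_univ_succ]
  simp [T_fst, T_snd, Real.norm_eq_abs, sq_abs]

lemma stepA (n : ℕ) {e : E (n + 1)} (he : ‖e‖ = 1) (F : ℝ → ℝ → ℝ) :
    ∫ x : E (n + 1), F ‖x‖ ⟪x, e⟫ = ∫ z : ℝ × E n, F (√(z.1 ^ 2 + ‖z.2‖ ^ 2)) z.1 := by
  obtain ⟨b, hb⟩ := Orthonormal.exists_orthonormalBasis_extension_of_card_eq (𝕜 := ℝ)
    (E := E (n + 1)) (ι := Fin (n + 1)) (v := fun _ => e) (s := {0})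
    (by simp) (by
      constructor
      · intro i; exact he
      · intro i j hij
        exact absurd (Subsingleton.elim i j) hij)
  have hb0 : b 0 = e := hb 0 rfl
  have h1 : ∀ x : E (n + 1), F ‖x‖ ⟪x, e⟫ =
      (fun z : ℝ × E n => F (√(z.1 ^ 2 + ‖z.2‖ ^ 2)) z.1) (T n (b.repr x)) := by
    intro x
    have h2 : (T n (b.repr x)).1 = ⟪x, e⟫ := by
      rw [T_fst, b.repr_apply_apply, hb0, real_inner_comm]
    simp only
    rw [← T_norm, b.repr.norm_map, h2]
  simp_rw [h1]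
  rw [← (T_mp n).integral_comp']
  exact (b.repr.measurePreserving).integral_comp b.repr.toHomeomorph.measurableEmbedding
    (fun y => (fun z : ℝ × E n => F (√(z.1 ^ 2 + ‖z.2‖ ^ 2)) z.1) (T n y))

/-- the radial integration constant -/
def cst (m : ℕ) : ℝ := (m + 2 : ℝ) * (volume : Measure (E (m + 2))).real (ball 0 1)

lemma cst_pos (m : ℕ) : 0 < cst m := by
  have h : 0 < (volume : Measure (E (m + 2))).real (ball 0 1) :=
    ENNReal.toReal_pos (measure_ball_pos _ _ one_pos).ne' measure_ball_lt_top.ne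
  unfold cst
  positivity

lemma stepB (m : ℕ) {H : ℝ → ℝ → ℝ} (hH : Measurable (fun z : ℝ × ℝ => H z.1 z.2)) {M b : ℝ}
    (hM : ∀ z t, |H z t| ≤ M) (h0 : ∀ z t, ¬(|z| ≤ b ∧ |t| ≤ b) → H z t = 0) :
    ∫ z : ℝ × E (m + 2), H z.1 ‖z.2‖ =
      cst m * ∫ p : ℝ × ℝ, (if 0 < p.2 then p.2 ^ (m + 1) * H p.1 p.2 else 0) := by
  have hm1 : Measurable fun z : ℝ × E (m + 2) => H z.1 ‖z.2‖ :=
    hH.comp (measurable_fst.prodMk measurable_snd.norm)
  have hi1 : Integrable (fun z : ℝ × E (m + 2) => H z.1 ‖z.2‖) volume := by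
    refine integrable_bdd (S := Icc (-b) b ×ˢ closedBall 0 b) hm1 ?_ (fun z => hM _ _) ?_
    · exact ((isCompact_Icc.prod (isCompact_closedBall (0 : E (m + 2)) b)).measure_lt_top).ne
    · intro z hz
      apply h0
      rintro ⟨h1, h2⟩
      apply hz
      refine ⟨abs_le.1 h1, ?_⟩
      rw [mem_closedBall_zero_iff]
      rwa [abs_norm] at h2
  have hm2 : Measurable fun p : ℝ × ℝ => (if 0 < p.2 then p.2 ^ (m + 1) * H p.1 p.2 else 0) :=
    Measurable.ite (measurableSet_lt measurable_const measurable_snd)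
      ((measurable_snd.pow_const _).mul hH) measurable_const
  have hM0 : 0 ≤ M := (abs_nonneg _).trans (hM 0 0)
  have hi2 : Integrable (fun p : ℝ × ℝ =>
      (if 0 < p.2 then p.2 ^ (m + 1) * H p.1 p.2 else 0)) volume := by
    refine integrable_bdd (S := Icc (-b) b ×ˢ Icc (-b) b) (M := |b| ^ (m + 1) * M) hm2 ?_ ?_ ?_
    · exact ((isCompact_Icc.prod isCompact_Icc).measure_lt_top).ne
    · intro p
      by_cases hp : 0 < p.2
      · rw [if_pos hp, abs_mul, abs_pow]
        by_cases h1 : |p.1| ≤ b ∧ |p.2| ≤ b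
        · exact mul_le_mul (pow_le_pow_left₀ (abs_nonneg _) (h1.2.trans (le_abs_self b)) _)
            (hM _ _) (abs_nonneg _) (by positivity)
        · rw [h0 _ _ h1, abs_zero, mul_zero]; positivity
      · rw [if_neg hp, abs_zero]; positivity
    · intro p hp
      by_cases hp2 : 0 < p.2
      · rw [if_pos hp2, h0, mul_zero]
        rintro ⟨h1, h2⟩
        exact hp ⟨abs_le.1 h1, abs_le.1 h2⟩
      · rw [if_neg hp2]
  have e1 := integral_prod (μ := (volume : Measure ℝ)) (ν := (volume : Measure (E (m + 2)))) _ hi1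
  have e2 := integral_prod (μ := (volume : Measure ℝ)) (ν := (volume : Measure ℝ)) _ hi2
  have e1' : ∫ z : ℝ × E (m + 2), H z.1 ‖z.2‖ = ∫ z : ℝ, ∫ y : E (m + 2), H z ‖y‖ := e1
  have e2' : ∫ p : ℝ × ℝ, (if 0 < p.2 then p.2 ^ (m + 1) * H p.1 p.2 else 0) =
    ∫ z : ℝ, ∫ t : ℝ, (if 0 < t then t ^ (m + 1) * H z t else 0) := e2
  rw [e1', e2', ← integral_const_mul]
  congr 1
  funext z
  rw [integral_fun_norm_addHaar volume (fun t => H z t)]
  have e3 : Module.finrank ℝ (E (m + 2)) = m + 2 := by simp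
  rw [e3]
  have e4 : ∫ t : ℝ, (if 0 < t then t ^ (m + 1) * H z t else 0) =
      ∫ t in Ioi (0 : ℝ), t ^ (m + 1) * H z t := by
    rw [← integral_indicator measurableSet_Ioi]
    rfl
  rw [e4]
  simp only [smul_eq_mul, nsmul_eq_mul, cst]
  push_cast
  ring_nf

lemma wt_continuous (m : ℕ) : Continuous (wt (m + 3)) := by
  unfold wt
  refine Continuous.rpow_const (by fun_prop) fun s => Or.inr ?_
  push_cast
  have : (0 : ℝ) ≤ m := Nat.cast_nonneg m
  linarith

lemma wt_cos (m : ℕ) {θ : ℝ} (h : 0 ≤ Real.sin θ) : wt (m + 3) (Real.cos θ) = Real.sin θ ^ m := by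
  unfold wt
  have e1 : 1 - Real.cos θ ^ 2 = Real.sin θ ^ (2 : ℝ) := by
    rw [Real.rpow_two]
    linarith [Real.sin_sq_add_cos_sq θ]
  rw [e1, ← Real.rpow_mul h, ← Real.rpow_natCast]
  congr 1
  push_cast
  ring

lemma wt_int_pos (m : ℕ) : 0 < ∫ s in (-1 : ℝ)..1, wt (m + 3) s := by
  apply intervalIntegral.intervalIntegral_pos_of_pos_on
    ((wt_continuous m).intervalIntegrable _ _) _ (by norm_num)
  intro s hs
  unfold wt
  apply Real.rpow_pos_of_pos
  nlinarith [hs.1, hs.2]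

lemma stepD (m : ℕ) {q : ℝ → ℝ} (hq : ContinuousOn q (Icc (-1) 1)) :
    ∫ θ in (0 : ℝ)..Real.pi, Real.sin θ ^ (m + 1) * q (Real.cos θ) =
      ∫ s in (-1 : ℝ)..1, q s * wt (m + 3) s := by
  have hpi := Real.pi_pos
  have h1 := intervalIntegral.integral_comp_mul_deriv'' (f := Real.cos)
    (f' := fun θ => -Real.sin θ) (g := fun s => q s * wt (m + 3) s) (a := 0) (b := Real.pi)
    Real.continuous_cos.continuousOn
    (fun x _ => (Real.hasDerivAt_cos x).hasDerivWithinAt)
    (Real.continuous_sin.neg.continuousOn)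
    ((hq.mul (wt_continuous m).continuousOn).mono (by
      rintro _ ⟨θ, -, rfl⟩
      exact ⟨Real.neg_one_le_cos θ, Real.cos_le_one θ⟩))
  rw [Real.cos_zero, Real.cos_pi] at h1
  have h2 : ∫ s in (-1 : ℝ)..1, q s * wt (m + 3) s =
      -∫ x in (0 : ℝ)..Real.pi, ((fun s => q s * wt (m + 3) s) ∘ Real.cos) x * -Real.sin x := by
    rw [h1, intervalIntegral.integral_symm (-1 : ℝ) 1, neg_neg]
  rw [h2, ← intervalIntegral.integral_neg]
  apply intervalIntegral.integral_congr
  intro θ hθ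
  rw [uIcc_of_le hpi.le] at hθ
  have hs : 0 ≤ Real.sin θ := Real.sin_nonneg_of_mem_Icc hθ
  simp only [Function.comp]
  rw [wt_cos m hs]
  ring

lemma stepC (m : ℕ) {g : ℝ → ℝ → ℝ} (hg : Measurable (fun z : ℝ × ℝ => g z.1 z.2)) {M b : ℝ}
    (hM : ∀ z t, |g z t| ≤ M) (h0 : ∀ r s, ¬(r < b) → g r s = 0) :
    ∫ p : ℝ × ℝ, (if 0 < p.2 then p.2 ^ (m + 1) *
      g (√(p.1 ^ 2 + p.2 ^ 2)) (p.1 / √(p.1 ^ 2 + p.2 ^ 2)) else 0) =
    ∫ r in Ioi (0 : ℝ), r ^ (m + 2) * ∫ θ in Ioo 0 Real.pi,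
      Real.sin θ ^ (m + 1) * g r (Real.cos θ) := by
  have hpi := Real.pi_pos
  rw [← integral_comp_polarCoord_symm, polarCoord_target]
  have e1 : ∀ p ∈ Ioi (0 : ℝ) ×ˢ Ioo (-Real.pi) Real.pi, p.1 • (fun p : ℝ × ℝ =>
      (if 0 < p.2 then p.2 ^ (m + 1) * g (√(p.1 ^ 2 + p.2 ^ 2)) (p.1 / √(p.1 ^ 2 + p.2 ^ 2)) else 0))
      (polarCoord.symm p) = p.1 ^ (m + 2) *
        (if 0 < Real.sin p.2 then Real.sin p.2 ^ (m + 1) * g p.1 (Real.cos p.2) else 0) := by
    rintro ⟨r, θ⟩ ⟨hr, hθ⟩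
    have hr : 0 < r := hr
    have e2 : (r * Real.cos θ) ^ 2 + (r * Real.sin θ) ^ 2 = r ^ 2 := by
      have := Real.sin_sq_add_cos_sq θ
      linear_combination r ^ 2 * this
    simp only [polarCoord_symm_apply, smul_eq_mul, e2, Real.sqrt_sq hr.le,
      mul_div_cancel_left₀ _ hr.ne', mul_pos_iff_of_pos_left hr]
    split_ifs
    · ring
    · ring
  rw [setIntegral_congr_fun (measurableSet_Ioi.prod measurableSet_Ioo) e1]
  have hM0 : 0 ≤ M := (abs_nonneg _).trans (hM 0 0)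
  have hmeas : Measurable fun p : ℝ × ℝ => p.1 ^ (m + 2) *
        (if 0 < Real.sin p.2 then Real.sin p.2 ^ (m + 1) * g p.1 (Real.cos p.2) else 0) := by
    refine (measurable_fst.pow_const _).mul (Measurable.ite ?_ ?_ measurable_const)
    · exact measurableSet_lt measurable_const (Real.measurable_sin.comp measurable_snd)
    · exact ((Real.measurable_sin.comp measurable_snd).pow_const _).mul
        (hg.comp (measurable_fst.prodMk (Real.measurable_cos.comp measurable_snd)))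
  have hi : IntegrableOn (fun p : ℝ × ℝ => p.1 ^ (m + 2) *
        (if 0 < Real.sin p.2 then Real.sin p.2 ^ (m + 1) * g p.1 (Real.cos p.2) else 0))
      (Ioi (0 : ℝ) ×ˢ Ioo (-Real.pi) Real.pi) (volume.prod volume) := by
    have hi' : Integrable (((Ioi (0 : ℝ) ×ˢ Ioo (-Real.pi) Real.pi)).indicator
        (fun p : ℝ × ℝ => p.1 ^ (m + 2) *
        (if 0 < Real.sin p.2 then Real.sin p.2 ^ (m + 1) * g p.1 (Real.cos p.2) else 0)))
        (volume.prod volume) := by
      refine integrable_bdd (S := Icc 0 b ×ˢ Icc (-Real.pi) Real.pi) (M := |b| ^ (m + 2) * M)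
        (hmeas.indicator (measurableSet_Ioi.prod measurableSet_Ioo)) ?_ ?_ ?_
      · exact ((isCompact_Icc.prod isCompact_Icc).measure_lt_top).ne
      · intro p
        by_cases hp : p ∈ Ioi (0 : ℝ) ×ˢ Ioo (-Real.pi) Real.pi
        · rw [indicator_of_mem hp]
          by_cases hpb : p.1 < b
          · have hp1 : 0 < p.1 := hp.1
            rw [abs_mul, abs_pow, abs_of_pos hp1]
            apply mul_le_mul (pow_le_pow_left₀ hp1.le (hpb.le.trans (le_abs_self b)) _) _
              (abs_nonneg _) (by positivity)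
            split_ifs with hs
            · rw [abs_mul, abs_pow, abs_of_pos hs]
              calc Real.sin p.2 ^ (m + 1) * |g p.1 (Real.cos p.2)| ≤ 1 * M :=
                    mul_le_mul (pow_le_one₀ hs.le (Real.sin_le_one _)) (hM _ _) (abs_nonneg _)
                      zero_le_one
                _ = M := one_mul M
            · rw [abs_zero]; exact hM0
          · rw [h0 _ _ hpb]
            simp only [mul_zero, ite_self, abs_zero]
            positivity
        · rw [indicator_of_notMem hp, abs_zero]; positivity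
      · intro p hp
        by_cases hp1 : p ∈ Ioi (0 : ℝ) ×ˢ Ioo (-Real.pi) Real.pi
        · rw [indicator_of_mem hp1]
          rw [h0 _ _ fun h => hp ⟨⟨le_of_lt hp1.1, h.le⟩, ⟨hp1.2.1.le, hp1.2.2.le⟩⟩]
          simp only [mul_zero, ite_self]
        · rw [indicator_of_notMem hp1]
    exact (integrable_indicator_iff (measurableSet_Ioi.prod measurableSet_Ioo)).1 hi'
  have e3 := setIntegral_prod (μ := (volume : Measure ℝ)) (ν := (volume : Measure ℝ)) _ hi
  refine Eq.trans e3 ?_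
  apply setIntegral_congr_fun measurableSet_Ioi
  intro r hr
  simp only
  rw [integral_const_mul]
  congr 1
  -- the angular integral
  rw [← integral_indicator measurableSet_Ioo, ← integral_indicator measurableSet_Ioo]
  congr 1
  funext θ
  by_cases h1 : θ ∈ Ioo 0 Real.pi
  · have h2 : θ ∈ Ioo (-Real.pi) Real.pi := ⟨by linarith [h1.1], h1.2⟩
    rw [indicator_of_mem h1, indicator_of_mem h2, if_pos (Real.sin_pos_of_mem_Ioo h1)]
  · rw [indicator_of_notMem h1]
    by_cases h2 : θ ∈ Ioo (-Real.pi) Real.pi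
    · rw [indicator_of_mem h2, if_neg]
      intro h3
      apply h1
      refine ⟨?_, h2.2⟩
      by_contra h4
      push Not at h4
      exact absurd (Real.sin_nonpos_of_nonpos_of_neg_pi_le h4 h2.1.le) (not_le.2 h3)
    · rw [indicator_of_notMem h2]

end AxInt

open AxInt in
/-- P4: integration in polar coordinates around the axis `ℝ e` -/
theorem exists_axis (N : ℕ) (hN : 3 ≤ N) : ∃ κ : ℝ, 0 < κ ∧ ∀ (e : E N), ‖e‖ = 1 →
    ∀ (a b : ℝ), 0 < a → a < b → ∀ k : ℝ → ℝ → ℝ, ContinuousOn (fun z : ℝ × ℝ => k z.1 z.2)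
        (Icc a b ×ˢ Icc (-1) 1) →
      ∫ x in {x : E N | a < ‖x‖ ∧ ‖x‖ < b}, k ‖x‖ (⟪x, e⟫ / ‖x‖)
        = κ * ∫ r in a..b, r ^ (N - 1) * av N (k r) := by
  obtain ⟨m, rfl⟩ : ∃ m, N = m + 3 := ⟨N - 3, by omega⟩
  have hw := wt_int_pos m
  refine ⟨cst m * ∫ s in (-1 : ℝ)..1, wt (m + 3) s, mul_pos (cst_pos m) hw, ?_⟩
  intro e he a b ha hab k hk
  -- a bound for `k`
  obtain ⟨M, hM⟩ := (isCompact_Icc.prod isCompact_Icc).exists_bound_of_continuousOn hk
  have hM0 : 0 ≤ M := (norm_nonneg _).trans (hM (a, 1) ⟨⟨le_rfl, hab.le⟩, ⟨by norm_num, le_rfl⟩⟩)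
  set S : Set (ℝ × ℝ) := Ioo a b ×ˢ Icc (-1) 1 with hS
  have hSm : MeasurableSet S := measurableSet_Ioo.prod measurableSet_Icc
  have hSsub : S ⊆ Icc a b ×ˢ Icc (-1) 1 := prod_mono Ioo_subset_Icc_self le_rfl
  set g : ℝ → ℝ → ℝ := fun r s => S.indicator (fun z : ℝ × ℝ => k z.1 z.2) (r, s) with hg
  have hgm : Measurable (fun z : ℝ × ℝ => g z.1 z.2) := by
    have h1 : Measurable (S.indicator (fun z : ℝ × ℝ => k z.1 z.2)) := by
      classical
      rw [← piecewise_eq_indicator]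
      exact (hk.mono hSsub).measurable_piecewise continuousOn_const hSm
    exact h1
  have hgM : ∀ r s, |g r s| ≤ M := by
    intro r s
    by_cases h : (r, s) ∈ S
    · rw [hg]; simp only; rw [indicator_of_mem h]
      exact hM _ (hSsub h)
    · rw [hg]; simp only; rw [indicator_of_notMem h, abs_zero]; exact hM0
  have hg0 : ∀ r s, ¬(r < b) → g r s = 0 := by
    intro r s h
    rw [hg]; simp only; rw [indicator_of_notMem]
    exact fun h1 => h h1.1.2
  -- step 1
  have e1 : ∫ x in {x : E (m + 3) | a < ‖x‖ ∧ ‖x‖ < b}, k ‖x‖ (⟪x, e⟫ / ‖x‖) =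
      ∫ x : E (m + 3), (fun ρ z => g ρ (z / ρ)) ‖x‖ ⟪x, e⟫ := by
    have hms : MeasurableSet {x : E (m + 3) | a < ‖x‖ ∧ ‖x‖ < b} :=
      (measurableSet_lt measurable_const measurable_norm).inter
        (measurableSet_lt measurable_norm measurable_const)
    rw [← integral_indicator hms]
    congr 1
    funext x
    by_cases hx : x ∈ {x : E (m + 3) | a < ‖x‖ ∧ ‖x‖ < b}
    · rw [indicator_of_mem hx, hg]
      simp only
      rw [indicator_of_mem]
      refine ⟨hx, ?_⟩
      have hx0 : 0 < ‖x‖ := ha.trans hx.1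
      have h2 := abs_real_inner_le_norm x e
      rw [he, mul_one] at h2
      apply abs_le.1
      rw [abs_div, abs_norm, div_le_one hx0]
      exact h2
    · rw [indicator_of_notMem hx, hg]
      simp only
      rw [indicator_of_notMem]
      exact fun h => hx h.1
  rw [e1, stepA (m + 2) he (fun ρ z => g ρ (z / ρ))]
  -- step 2
  have hb0 : 0 < b := ha.trans hab
  rw [stepB m (H := fun z t => g (√(z ^ 2 + t ^ 2)) (z / √(z ^ 2 + t ^ 2))) (M := M) (b := b) ?_
    (fun z t => hgM _ _) ?_]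
  rotate_left
  · refine hgm.comp (f := fun z : ℝ × ℝ => (√(z.1 ^ 2 + z.2 ^ 2), z.1 / √(z.1 ^ 2 + z.2 ^ 2))) ?_
    have h1 : Measurable fun z : ℝ × ℝ => √(z.1 ^ 2 + z.2 ^ 2) :=
      ((measurable_fst.pow_const _).add (measurable_snd.pow_const _)).sqrt
    exact h1.prodMk (measurable_fst.div h1)
  · intro z t h
    apply hg0
    intro h1
    apply h
    constructor
    · refine le_trans ?_ h1.le
      rw [← Real.sqrt_sq_eq_abs]
      exact Real.sqrt_le_sqrt (by nlinarith [sq_nonneg t])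
    · refine le_trans ?_ h1.le
      rw [← Real.sqrt_sq_eq_abs]
      exact Real.sqrt_le_sqrt (by nlinarith [sq_nonneg z])
  rw [stepC m hgm hgM hg0]
  rw [mul_assoc]
  congr 1
  rw [← intervalIntegral.integral_const_mul, intervalIntegral.integral_of_le hab.le,
    integral_Ioc_eq_integral_Ioo]
  rw [← integral_indicator measurableSet_Ioi, ← integral_indicator measurableSet_Ioo]
  congr 1
  funext r
  by_cases hr : r ∈ Ioo a b
  · rw [indicator_of_mem hr, indicator_of_mem (show r ∈ Ioi (0 : ℝ) from ha.trans hr.1)]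
    have hkr : ContinuousOn (k r) (Icc (-1) 1) := by
      have h1 : ContinuousOn (fun s : ℝ => (r, s)) (Icc (-1) 1) := by fun_prop
      exact hk.comp h1 fun s hs => ⟨⟨hr.1.le, hr.2.le⟩, hs⟩
    have h2 := stepD m hkr
    rw [intervalIntegral.integral_of_le Real.pi_pos.le, integral_Ioc_eq_integral_Ioo] at h2
    have h3 : ∫ θ in Ioo 0 Real.pi, Real.sin θ ^ (m + 1) * g r (Real.cos θ) =
        ∫ θ in Ioo 0 Real.pi, Real.sin θ ^ (m + 1) * k r (Real.cos θ) := by
      congr 1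
      funext θ
      rw [hg]; simp only
      rw [indicator_of_mem]
      exact ⟨hr, Real.neg_one_le_cos θ, Real.cos_le_one θ⟩
    have h4 : (∫ s in (-1 : ℝ)..1, wt (m + 3) s) *
        (r ^ (m + 3 - 1) * ((∫ s in (-1 : ℝ)..1, k r s * wt (m + 3) s) /
          ∫ s in (-1 : ℝ)..1, wt (m + 3) s)) =
        r ^ (m + 3 - 1) * (∫ s in (-1 : ℝ)..1, k r s * wt (m + 3) s) := by
      field_simp
    rw [h3, h2, av, h4]
    rfl
  · rw [indicator_of_notMem hr]
    by_cases hr0 : r ∈ Ioi (0 : ℝ)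
    · rw [indicator_of_mem hr0]
      have h3 : ∫ θ in Ioo 0 Real.pi, Real.sin θ ^ (m + 1) * g r (Real.cos θ) = 0 := by
        rw [show (fun θ => Real.sin θ ^ (m + 1) * g r (Real.cos θ)) = fun _ => (0 : ℝ) from ?_]
        · simp
        · funext θ
          rw [hg]; simp only
          rw [indicator_of_notMem (fun h => hr h.1), mul_zero]
      rw [h3, mul_zero]
    · rw [indicator_of_notMem hr0]

end Pool.Agent.helper13.BN
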